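import Mathlib
import Pool.Agent.H892.KT.Stm

/-!
# Project KT: existence of the conjugation (CONJ)
-/

set_option autoImplicit false

open Filter Topology Set

namespace Pool.Agent.H448.KT

open Pool.Agent.H892.KT

theorem exists_ball {n : ℕ} [NeZero n] (V : ZMod n → Set (ℂ × ℂ)) (ho : ∀ i, IsOpen (V i))
    (h0 : ∀ i, (0 : ℂ × ℂ) ∈ V i) :
    ∃ r : ℝ, 0 < r ∧ r ≤ 1 / 4 ∧ ∀ i, Metric.ball (0 : ℂ × ℂ) r ⊆ V i := by
  have h1 : (⋂ i, V i) ∈ 𝓝 (0 : ℂ × ℂ) := by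
    exact (isOpen_iInter_of_finite ho).mem_nhds (Set.mem_iInter.2 h0)
  obtain ⟨r, hr, hb⟩ := Metric.mem_nhds_iff.1 h1
  refine ⟨min r (1 / 4), lt_min hr (by norm_num), min_le_right _ _, fun i y hy => ?_⟩
  have h2 : y ∈ Metric.ball (0 : ℂ × ℂ) r := Metric.ball_subset_ball (min_le_left _ _) hy
  exact Set.mem_iInter.1 (hb h2) i

theorem fd_le (w : ℂ × ℂ → ℂ × ℂ) (r : ℝ) (hr : 0 < r) (hr4 : r ≤ 1 / 4)
    (hd : DifferentiableOn ℂ w (Metric.ball 0 r))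
    (hw : ∀ y ∈ Metric.ball (0 : ℂ × ℂ) r, ‖w y‖ ≤ ‖y‖ ^ 3) (y : ℂ × ℂ)
    (hy : y ∈ Metric.ball (0 : ℂ × ℂ) (r / 2)) : ‖fderiv ℂ w y‖ ≤ 1 / 2 := by
  have hsub : Metric.ball y (r / 2) ⊆ Metric.ball (0 : ℂ × ℂ) r := by
    intro z hz
    rw [mem_ball_zero_iff] at hy ⊢
    rw [mem_ball_iff_norm] at hz
    calc ‖z‖ = ‖(z - y) + y‖ := by rw [sub_add_cancel]
      _ ≤ ‖z - y‖ + ‖y‖ := norm_add_le _ _
      _ < r := by linarith
  have hle : ∀ z ∈ Metric.ball (0 : ℂ × ℂ) r, ‖w z‖ ≤ r ^ 3 := by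
    intro z hz
    refine (hw z hz).trans ?_
    rw [mem_ball_zero_iff] at hz
    exact pow_le_pow_left₀ (norm_nonneg _) hz.le 3
  have hyr : y ∈ Metric.ball (0 : ℂ × ℂ) r := hsub (Metric.mem_ball_self (by linarith))
  have hmaps : MapsTo w (Metric.ball y (r / 2)) (Metric.closedBall (w y) (2 * r ^ 3)) := by
    intro z hz
    rw [mem_closedBall_iff_norm]
    calc ‖w z - w y‖ ≤ ‖w z‖ + ‖w y‖ := norm_sub_le _ _
      _ ≤ r ^ 3 + r ^ 3 := add_le_add (hle z (hsub hz)) (hle y hyr)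
      _ = 2 * r ^ 3 := by ring
  have h1 := Complex.norm_fderiv_le_div_of_mapsTo_ball (hd.mono hsub) hmaps (by linarith)
  refine h1.trans ?_
  rw [div_le_iff₀ (by linarith)]
  nlinarith [mul_pos hr hr, mul_le_mul hr4 hr4 hr.le (by norm_num : (0 : ℝ) ≤ 1 / 4)]

theorem t_CONJ (h1 : S_TRACE) (h2 : S_QUAD) (h3 : S_WEIGHT) (h4 : S_INVD) (h5 : S_JETS)
    (h6 : S_FIX) (h7 : S_ANA) : S_CONJ := by
  intro n _ K hK
  have hQ : Quad K := h2 n K (h1 n K hK)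
  obtain ⟨N, hN, hW⟩ := h3 n K hQ
  have hjet : ∀ i, ∃ e, BG e ∧ (fun y => e y - K.σ i y) =O[𝓝 0] fun y => ‖y‖ ^ (N + 1) := by
    intro i
    obtain ⟨A, hA⟩ := h4 n K i
    exact h5 (K.σ i) A N (h7 (K.U i) (K.σ i) (K.isOpen_U i) (K.diff i) 0 (K.zero_mem i))
      (K.map_zero i) hA
  choose e he hO using hjet
  obtain ⟨ε₀, hε₀, hε₁, hF⟩ := h6 n K N e he hO
  obtain ⟨V0, W0, hV0⟩ := hW ε₀ hε₀
  obtain ⟨w, hwd, hwW, hweq⟩ := hF ε₀ hε₀ le_rfl V0 W0 hV0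
  obtain ⟨r0, hr0, hr4, hball⟩ := exists_ball V0 hV0.isOpen hV0.zero_mem
  have hw3 : ∀ i, ∀ y ∈ Metric.ball (0 : ℂ × ℂ) r0, ‖w i y‖ ≤ ‖y‖ ^ 3 := fun i y hy =>
    (hwW i y (hball i hy)).trans (hV0.upper i y (hball i hy))
  have hdd : ∀ i, DifferentiableOn ℂ (w i) (Metric.ball 0 r0) := fun i => (hwd i).mono (hball i)
  have hε' : 0 < min (r0 / 2) ε₀ := lt_min (by linarith) hε₀
  obtain ⟨V, W, hV⟩ := hW (min (r0 / 2) ε₀) hε'
  have hsub2 : Metric.ball (0 : ℂ × ℂ) (r0 / 2) ⊆ Metric.ball 0 r0 :=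
    Metric.ball_subset_ball (by linarith)
  have hVs : ∀ i, V i ⊆ Metric.ball (0 : ℂ × ℂ) (r0 / 2) := by
    intro i y hy
    rw [mem_ball_zero_iff]
    exact (hV.small i y hy).trans_le (min_le_left _ _)
  have hV0s : ∀ i, V i ⊆ V0 i := fun i y hy => hball i (hsub2 (hVs i hy))
  exact ⟨{
    V := V
    w := w
    e := e
    r := r0 / 2
    r_pos := by linarith
    r_le := by linarith
    bg := he
    isOpen_V := hV.isOpen
    zero_mem := hV.zero_mem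
    subU := hV.subU
    small := fun i y hy => mem_ball_zero_iff.1 (hVs i hy)
    maps := hV.maps
    norm_le := fun i y hy => ((hV.norm_le i y hy).trans (min_le_right _ _)).trans hε₁
    w_diff := fun i => (hdd i).mono hsub2
    w_le := fun i y hy => hw3 i y (hsub2 hy)
    w_fd := fun i y hy => fd_le (w i) r0 hr0 hr4 (hdd i) (hw3 i) y hy
    mem := fun i y hy => (hweq i y (hV0s i hy)).1
    eq := fun i y hy => (hweq i y (hV0s i hy)).2 }⟩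

end Pool.Agent.H448.KT
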